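import Mathlib
import Pool.Agent.Results.MP_705b7e_co.StarForestBounds

/-!
# Spanning star forests

Every finite graph without isolated vertices contains a spanning star forest: a spanning subgraph
without isolated vertices which is minimal has an end of degree one at each edge.
-/

set_option autoImplicit false

namespace Run7.h842.MR

open Finset
open Pool.Agent.Results.MP_705b7e_co.StarForestBounds (Arrows ramseyNumber starForest)

/-- A minimal spanning subgraph without isolated vertices. -/
theorem exists_minimal_sub {n : ℕ} (G : SimpleGraph (Fin n)) (hG : ∀ v, ∃ w, G.Adj v w) :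
    ∃ H : SimpleGraph (Fin n), H ≤ G ∧ (∀ v, ∃ w, H.Adj v w) ∧
      ∀ u v, H.Adj u v → (∀ w, H.Adj u w → w = v) ∨ (∀ w, H.Adj v w → w = u) := by
  classical
  obtain ⟨H, hH⟩ := (Set.toFinite {H : SimpleGraph (Fin n) | H ≤ G ∧ ∀ v, ∃ w, H.Adj v w}).exists_minimal
    ⟨G, le_rfl, hG⟩
  have hHm := hH.prop
  refine ⟨H, hHm.1, hHm.2, ?_⟩
  intro u v huv
  by_contra hcon
  push Not at hcon
  obtain ⟨⟨w, huw, hwv⟩, ⟨w', hvw', hw'u⟩⟩ := hcon
  let H' : SimpleGraph (Fin n) := H.deleteEdges {s(u, v)}
  have hle : H' ≤ H := SimpleGraph.deleteEdges_le _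
  have hmem : H' ≤ G ∧ ∀ v, ∃ w, H'.Adj v w := by
    refine ⟨hle.trans hHm.1, ?_⟩
    intro x
    by_cases hxu : x = u
    · subst hxu
      refine ⟨w, ?_⟩
      simp only [H', SimpleGraph.deleteEdges_adj, Set.mem_singleton_iff, Sym2.eq_iff]
      refine ⟨huw, ?_⟩
      rintro (⟨_, h⟩ | ⟨h, h2⟩)
      · exact hwv h
      · exact huv.ne h
    · by_cases hxv : x = v
      · subst hxv
        refine ⟨w', ?_⟩
        simp only [H', SimpleGraph.deleteEdges_adj, Set.mem_singleton_iff, Sym2.eq_iff]
        refine ⟨hvw', ?_⟩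
        rintro (⟨h, _⟩ | ⟨_, h⟩)
        · exact hxu h
        · exact hw'u h
      · obtain ⟨y, hy⟩ := hHm.2 x
        refine ⟨y, ?_⟩
        simp only [H', SimpleGraph.deleteEdges_adj, Set.mem_singleton_iff, Sym2.eq_iff]
        refine ⟨hy, ?_⟩
        rintro (⟨h, _⟩ | ⟨h, _⟩)
        · exact hxu h
        · exact hxv h
  have h1 : H ≤ H' := hH.le_of_le hmem hle
  have h2 : H'.Adj u v := h1 huv
  simp [H'] at h2

/-- The centre map of a spanning star forest. -/
theorem exists_center {n : ℕ} (G : SimpleGraph (Fin n)) (hG : ∀ v, ∃ w, G.Adj v w) :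
    ∃ c : Fin n → Fin n, (∀ v, c (c v) = c v) ∧ (∀ v, c v ≠ v → G.Adj v (c v)) ∧
      (∀ v, c v = v → ∃ w, w ≠ v ∧ c w = v) := by
  classical
  obtain ⟨H, hle, hH, hmin⟩ := exists_minimal_sub G hG
  choose g hg using hH
  let leaf : Fin n → Prop := fun v => ∀ w, H.Adj v w → w = g v
  have hleaf : ∀ u v, H.Adj u v → leaf u ∨ leaf v := by
    intro u v huv
    rcases hmin u v huv with h | h
    · left
      intro w hw
      rw [h w hw, ← h (g u) (hg u)]
    · right
      intro w hw
      rw [h w hw, ← h (g v) (hg v)]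
  let Z : Fin n → Prop := fun v => ¬ leaf v ∨ (leaf (g v) ∧ v < g v)
  let c : Fin n → Fin n := fun v => if Z v then v else g v
  have hcZ : ∀ v, Z v → c v = v := fun v h => by simp only [c]; rw [if_pos h]
  have hcN : ∀ v, ¬ Z v → c v = g v := fun v h => by simp only [c]; rw [if_neg h]
  -- the neighbour of a non-centre is a centre
  have hZg : ∀ v, ¬ Z v → Z (g v) := by
    intro v hv
    by_cases h1 : leaf (g v)
    · right
      have hlv : leaf v := by
        by_contra h
        exact hv (Or.inl h)
      have hgg : g (g v) = v := (h1 v (hg v).symm).symm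
      rw [hgg]
      refine ⟨hlv, ?_⟩
      rcases lt_trichotomy v (g v) with h | h | h
      · exact absurd (Or.inr ⟨h1, h⟩) hv
      · exact absurd h (hg v).ne
      · exact h
    · exact Or.inl h1
  refine ⟨c, ?_, ?_, ?_⟩
  · intro v
    by_cases h : Z v
    · rw [hcZ v h, hcZ v h]
    · rw [hcN v h, hcZ _ (hZg v h)]
  · intro v hv
    by_cases h : Z v
    · exact absurd (hcZ v h) hv
    · rw [hcN v h]
      exact hle (hg v)
  · intro v hv
    have hZ : Z v := by
      by_contra h
      rw [hcN v h] at hv
      exact (hg v).ne hv.symm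
    refine ⟨g v, (hg v).ne.symm, ?_⟩
    by_cases h1 : leaf v
    · -- `v` and `g v` form a component
      have h2 : leaf (g v) ∧ v < g v := by
        rcases hZ with h | h
        · exact absurd h1 h
        · exact h
      have hgg : g (g v) = v := (h2.1 v (hg v).symm).symm
      have hnZ : ¬ Z (g v) := by
        rintro (h | ⟨_, h⟩)
        · exact h h2.1
        · rw [hgg] at h
          exact absurd h2.2 (not_lt.mpr h.le)
      rw [hcN _ hnZ, hgg]
    · have h3 : leaf (g v) := by
        rcases hleaf v (g v) (hg v) with h | h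
        · exact absurd h h1
        · exact h
      have hgg : g (g v) = v := (h3 v (hg v).symm).symm
      have hnZ : ¬ Z (g v) := by
        rintro (h | ⟨h, _⟩)
        · exact h h3
        · rw [hgg] at h
          exact h1 h
      rw [hcN _ hnZ, hgg]

/-- Every graph without isolated vertices contains a spanning star forest. -/
theorem exists_starForest {n : ℕ} (hn : 1 ≤ n) (G : SimpleGraph (Fin n))
    (hG : ∀ v, ∃ w, G.Adj v w) :
    ∃ (k : ℕ) (s : ℕ → ℕ), 1 ≤ k ∧ (∀ i j, i ≤ j → j < k → s j ≤ s i) ∧ (∀ i < k, 1 ≤ s i) ∧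
      ∑ l ∈ range k, s l + k = n ∧ (starForest k s).IsContained G := by
  classical
  obtain ⟨c, hcc, hadj, hne⟩ := exists_center G hG
  let D : Finset (Fin n) := univ.filter fun v => c v = v
  let L : Fin n → Finset (Fin n) := fun d => univ.filter fun v => v ≠ d ∧ c v = d
  have hLmem : ∀ d v, v ∈ L d ↔ v ≠ d ∧ c v = d := fun d v => by simp [L]
  have hDmem : ∀ v, v ∈ D ↔ c v = v := fun v => by simp [D]
  have hLpos : ∀ d ∈ D, 1 ≤ (L d).card := by
    intro d hd
    obtain ⟨w, hw⟩ := hne d ((hDmem d).mp hd)
    exact Finset.card_pos.mpr ⟨w, (hLmem d w).mpr hw⟩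
  set k := D.card with hk
  have hDne : D.Nonempty := ⟨c ⟨0, hn⟩, (hDmem _).mpr (hcc _)⟩
  let e0 : Fin k ≃ D := (D.equivFin).symm
  let f : Fin k → ℕ := fun i => (L (e0 i)).card
  have hmono : Monotone (f ∘ Tuple.sort f) := Tuple.monotone_sort f
  let e : Fin k → Fin n := fun i => (e0 (Tuple.sort f i.rev) : Fin n)
  have heD : ∀ i, e i ∈ D := fun i => (e0 (Tuple.sort f i.rev)).2
  have hec : ∀ i, c (e i) = e i := fun i => (hDmem _).mp (heD i)
  have heinj : Function.Injective e := by
    intro i j hij
    have h1 : e0 (Tuple.sort f i.rev) = e0 (Tuple.sort f j.rev) := Subtype.ext hij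
    exact Fin.rev_injective ((Tuple.sort f).injective (e0.injective h1))
  have hesurj : ∀ d ∈ D, ∃ i, e i = d := by
    intro d hd
    refine ⟨((Tuple.sort f).symm (e0.symm ⟨d, hd⟩)).rev, ?_⟩
    simp [e]
  have hanti : ∀ i j : Fin k, i ≤ j → (L (e j)).card ≤ (L (e i)).card := by
    intro i j hij
    exact hmono (Fin.rev_le_rev.mpr hij)
  let s : ℕ → ℕ := fun i => if h : i < k then (L (e ⟨i, h⟩)).card else 0
  have hs : ∀ i : Fin k, (L (e i)).card = s i := by
    intro i
    simp only [s]
    rw [dif_pos i.2]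
  refine ⟨k, s, Finset.card_pos.mpr hDne, ?_, ?_, ?_, ?_⟩
  · intro i j hij hj
    have h := hanti ⟨i, by omega⟩ ⟨j, hj⟩ (by simpa using hij)
    rw [hs, hs] at h
    exact h
  · intro i hi
    have h := hLpos _ (heD ⟨i, hi⟩)
    rw [hs] at h
    exact h
  · -- the number of vertices
    have h1 : (univ : Finset (Fin n)).card = ∑ d ∈ D, (univ.filter fun v => c v = d).card :=
      Finset.card_eq_sum_card_fiberwise (fun v _ => by
        simp only [Finset.mem_coe]
        exact (hDmem _).mpr (hcc v))
    have h2 : ∀ d ∈ D, (univ.filter fun v => c v = d).card = (L d).card + 1 := by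
      intro d hd
      have h3 : (univ.filter fun v => c v = d) = insert d (L d) := by
        ext v
        simp only [Finset.mem_filter, Finset.mem_univ, true_and, Finset.mem_insert, hLmem]
        constructor
        · intro h
          by_cases hv : v = d
          · exact Or.inl hv
          · exact Or.inr ⟨hv, h⟩
        · rintro (rfl | h)
          · exact (hDmem _).mp hd
          · exact h.2
      rw [h3, Finset.card_insert_of_notMem (fun h => ((hLmem d d).mp h).1 rfl)]
    have h3 : ∑ d ∈ D, ((L d).card + 1) = ∑ i : Fin k, ((L (e i)).card + 1) := by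
      symm
      refine Finset.sum_bij (fun i _ => e i) (fun i _ => heD i) (fun i _ j _ h => heinj h) ?_ ?_
      · intro d hd
        obtain ⟨i, hi⟩ := hesurj d hd
        exact ⟨i, Finset.mem_univ _, hi⟩
      · intro i _
        rfl
    have h4 : ∑ i : Fin k, ((L (e i)).card + 1) = ∑ l ∈ range k, (s l + 1) := by
      rw [← Fin.sum_univ_eq_sum_range (fun i => s i + 1) k]
      refine Finset.sum_congr rfl fun i _ => ?_
      rw [hs]
    rw [Finset.card_univ, Fintype.card_fin, Finset.sum_congr rfl h2, h3, h4,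
      Finset.sum_add_distrib] at h1
    simpa using h1.symm
  · -- the embedding
    let q : ∀ i : Fin k, Fin (s i) → Fin n := fun i a =>
      (((L (e i)).equivFinOfCardEq (hs i)).symm a : Fin n)
    have hq : ∀ i a, q i a ∈ L (e i) := fun i a =>
      (((L (e i)).equivFinOfCardEq (hs i)).symm a).2
    have hqinj : ∀ i, Function.Injective (q i) := fun i a b hab =>
      ((L (e i)).equivFinOfCardEq (hs i)).symm.injective (Subtype.ext hab)
    let φ : (Σ i : Fin k, Option (Fin (s i))) → Fin n := fun x =>
      match x.2 with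
      | none => e x.1
      | some a => q x.1 a
    have hφc : ∀ x, c (φ x) = e x.1 := by
      rintro ⟨i, x⟩
      rcases x with _ | a
      · exact hec i
      · exact ((hLmem _ _).mp (hq i a)).2
    refine ⟨⟨⟨φ, ?_⟩, ?_⟩⟩
    · rintro ⟨i, x⟩ ⟨j, y⟩ ⟨h1, h2⟩
      obtain rfl : i = j := h1
      have key : ∀ a, G.Adj (q i a) (e i) := by
        intro a
        have h := (hLmem _ _).mp (hq i a)
        have h3 := hadj (q i a) (by rw [h.2]; exact h.1.symm)
        rwa [h.2] at h3
      rcases x with _ | a <;> rcases y with _ | b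
      · simp at h2
      · exact (key b).symm
      · exact key a
      · simp at h2
    · rintro ⟨i, x⟩ ⟨j, y⟩ hxy
      have hxy' : φ ⟨i, x⟩ = φ ⟨j, y⟩ := hxy
      have hij : i = j := by
        have h1 := hφc ⟨i, x⟩
        have h2 := hφc ⟨j, y⟩
        rw [hxy'] at h1
        exact heinj (h1.symm.trans h2)
      subst hij
      rcases x with _ | a <;> rcases y with _ | b
      · rfl
      · exfalso
        have h := ((hLmem _ _).mp (hq i b)).1
        exact h (show q i b = e i from hxy'.symm)
      · exfalso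
        have h := ((hLmem _ _).mp (hq i a)).1
        exact h hxy'
      · have : a = b := hqinj i hxy'
        rw [this]

end Run7.h842.MR
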