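import Mathlib
import Pool.Agent.Results.MP_705b7e_co.StarForestBounds

/-!
# Finite Ramsey theorem for two colours
-/

set_option autoImplicit false

namespace Run7.h842.MR

open Finset
open Pool.Agent.Results.MP_705b7e_co.StarForestBounds (Arrows ramseyNumber)

/-- Ramsey's theorem for graphs. -/
theorem ramsey (a b : ℕ) : ∃ N : ℕ, ∀ (V : Type) (R : SimpleGraph V) (A : Finset V),
    N ≤ A.card →
    (∃ S ⊆ A, S.card = a ∧ ∀ x ∈ S, ∀ y ∈ S, x ≠ y → R.Adj x y) ∨
    (∃ S ⊆ A, S.card = b ∧ ∀ x ∈ S, ∀ y ∈ S, x ≠ y → ¬ R.Adj x y) := by
  classical
  induction a generalizing b with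
  | zero => exact ⟨0, fun V R A _ => Or.inl ⟨∅, by simp, by simp, by simp⟩⟩
  | succ a iha =>
    induction b with
    | zero => exact ⟨0, fun V R A _ => Or.inr ⟨∅, by simp, by simp, by simp⟩⟩
    | succ b ihb =>
      obtain ⟨N1, h1⟩ := iha (b + 1)
      obtain ⟨N2, h2⟩ := ihb
      refine ⟨N1 + N2 + 1, fun V R A hA => ?_⟩
      obtain ⟨v, hv⟩ : A.Nonempty := Finset.card_pos.mp (by omega)
      set A1 := (A.erase v).filter (fun u => R.Adj v u) with hA1
      set A2 := (A.erase v).filter (fun u => ¬ R.Adj v u) with hA2
      have hsum : A1.card + A2.card = (A.erase v).card :=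
        Finset.card_filter_add_card_filter_not _
      have herase : (A.erase v).card = A.card - 1 := Finset.card_erase_of_mem hv
      have hcase : N1 ≤ A1.card ∨ N2 ≤ A2.card := by
        by_contra hcon
        push Not at hcon
        omega
      rcases hcase with hc | hc
      · rcases h1 V R A1 hc with ⟨S, hS, hcard, hadj⟩ | ⟨S, hS, hcard, hadj⟩
        · left
          have hvS : v ∉ S := fun hvS => by
            have := hS hvS
            simp [hA1] at this
          refine ⟨insert v S, ?_, ?_, ?_⟩
          · intro x hx
            rcases Finset.mem_insert.mp hx with rfl | hx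
            · exact hv
            · have := hS hx
              simp only [hA1, Finset.mem_filter, Finset.mem_erase] at this
              exact this.1.2
          · rw [Finset.card_insert_of_notMem hvS, hcard]
          · intro x hx y hy hxy
            have key : ∀ z ∈ S, R.Adj v z := fun z hz => by
              have := hS hz
              simp only [hA1, Finset.mem_filter, Finset.mem_erase] at this
              exact this.2
            rcases Finset.mem_insert.mp hx with hx1 | hx1
            · rcases Finset.mem_insert.mp hy with hy1 | hy1
              · exact absurd (hx1.trans hy1.symm) hxy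
              · rw [hx1]; exact key y hy1
            · rcases Finset.mem_insert.mp hy with hy1 | hy1
              · rw [hy1]; exact (key x hx1).symm
              · exact hadj x hx1 y hy1 hxy
        · right
          refine ⟨S, fun x hx => ?_, hcard, hadj⟩
          have := hS hx
          simp only [hA1, Finset.mem_filter, Finset.mem_erase] at this
          exact this.1.2
      · rcases h2 V R A2 hc with ⟨S, hS, hcard, hadj⟩ | ⟨S, hS, hcard, hadj⟩
        · left
          refine ⟨S, fun x hx => ?_, hcard, hadj⟩
          have := hS hx
          simp only [hA2, Finset.mem_filter, Finset.mem_erase] at this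
          exact this.1.2
        · right
          have hvS : v ∉ S := fun hvS => by
            have := hS hvS
            simp [hA2] at this
          refine ⟨insert v S, ?_, ?_, ?_⟩
          · intro x hx
            rcases Finset.mem_insert.mp hx with rfl | hx
            · exact hv
            · have := hS hx
              simp only [hA2, Finset.mem_filter, Finset.mem_erase] at this
              exact this.1.2
          · rw [Finset.card_insert_of_notMem hvS, hcard]
          · intro x hx y hy hxy
            have key : ∀ z ∈ S, ¬ R.Adj v z := fun z hz => by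
              have := hS hz
              simp only [hA2, Finset.mem_filter, Finset.mem_erase] at this
              exact this.2
            rcases Finset.mem_insert.mp hx with hx1 | hx1
            · rcases Finset.mem_insert.mp hy with hy1 | hy1
              · exact absurd (hx1.trans hy1.symm) hxy
              · rw [hx1]; exact key y hy1
            · rcases Finset.mem_insert.mp hy with hy1 | hy1
              · rw [hy1]; exact fun h => key x hx1 h.symm
              · exact hadj x hx1 y hy1 hxy

/-- A clique with as many vertices as `G` contains `G`. -/
theorem contained_of_clique {n : ℕ} (G : SimpleGraph (Fin n)) {V : Type} (R : SimpleGraph V)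
    (S : Finset V) (hS : S.card = n) (h : ∀ x ∈ S, ∀ y ∈ S, x ≠ y → R.Adj x y) :
    G.IsContained R := by
  let e := (S.equivFinOfCardEq hS).symm
  refine ⟨⟨⟨fun i => (e i : V), ?_⟩, ?_⟩⟩
  · intro a b hab
    refine h _ (e a).2 _ (e b).2 ?_
    intro he
    exact hab.ne (e.injective (Subtype.ext he))
  · intro a b hab
    exact e.injective (Subtype.ext hab)

/-- Ramsey numbers exist. -/
theorem exists_arrows {n : ℕ} (G : SimpleGraph (Fin n)) : ∃ N, Arrows N G := by
  classical
  obtain ⟨N, hN⟩ := ramsey n n
  refine ⟨N, fun R => ?_⟩
  rcases hN (Fin N) R univ (by simp) with ⟨S, -, hc, h⟩ | ⟨S, -, hc, h⟩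
  · exact Or.inl (contained_of_clique G R S hc h)
  · refine Or.inr (contained_of_clique G Rᶜ S hc ?_)
    intro x hx y hy hxy
    rw [SimpleGraph.compl_adj]
    exact ⟨hxy, h x hx y hy hxy⟩

/-- The Ramsey number of a finite graph has its defining property. -/
theorem arrows_ramseyNumber {n : ℕ} (G : SimpleGraph (Fin n)) : Arrows (ramseyNumber G) G :=
  Nat.sInf_mem (s := {N : ℕ | Arrows N G}) (exists_arrows G)

end Run7.h842.MR
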