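import Mathlib
import Pool.Agent.Run7.h842.MR.Ramsey
import Pool.Agent.Run7.h842.MR.Forest

/-!
# Bounds for the least Ramsey number of a graph with `n` vertices none of which is isolated
-/

set_option autoImplicit false

namespace Run7.h842.MR

open Finset
open Pool.Agent.Results.MP_705b7e_co.StarForestBounds
  (Arrows ramseyNumber starForest arrows_of_bound leadingTerm starForest_adj)

/-- The sizes of the stars. -/
def sz (p i : ℕ) : ℕ := p / 2 ^ i - p / 2 ^ (i + 1) + 1

theorem half_pow (p i : ℕ) : p / 2 ^ (i + 1) = p / 2 ^ i / 2 := by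
  rw [Nat.div_div_eq_div_mul, pow_succ]

theorem sum_sz (p : ℕ) : ∀ i, ∑ l ∈ range i, sz p l + p / 2 ^ i = p + i
  | 0 => by simp
  | i + 1 => by
    have h := sum_sz p i
    rw [Finset.sum_range_succ, half_pow]
    simp only [sz, half_pow] at h ⊢
    generalize p / 2 ^ i = a at *
    omega

/-- The upper bound: a star forest with `k` stars. -/
theorem upper {n k : ℕ} (hk : 1 ≤ k) (h2k : 2 * k ≤ n) (hpow : n < 2 ^ k + 2 * k) :
    ∃ G : SimpleGraph (Fin n), (∀ v, ∃ w, G.Adj v w) ∧ Arrows (n + k + 2) G := by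
  classical
  obtain ⟨p, hp⟩ : ∃ p, n = p + 2 * k := ⟨n - 2 * k, by omega⟩
  have hpk : p / 2 ^ k = 0 := Nat.div_eq_of_lt (by omega)
  have hA : Arrows (n + k + 2) (starForest k (sz p)) := by
    refine arrows_of_bound k _ (sz p) hk ?_
    intro i hi
    have h := sum_sz p i
    simp only [sz, half_pow] at h ⊢
    generalize p / 2 ^ i = a at *
    generalize (∑ l ∈ range i, (p / 2 ^ l - p / 2 ^ l / 2 + 1)) = b at *
    omega
  have hcard : Fintype.card (Σ i : Fin k, Option (Fin (sz p i))) = Fintype.card (Fin n) := by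
    rw [Pool.Agent.Results.MP_705b7e_co.StarForestBounds.card_vertices, Fintype.card_fin]
    have h := sum_sz p k
    rw [hpk] at h
    omega
  let e : (Σ i : Fin k, Option (Fin (sz p i))) ≃ Fin n := Fintype.equivOfCardEq hcard
  refine ⟨(starForest k (sz p)).comap e.symm, ?_, ?_⟩
  · intro v
    have key : ∀ x : (Σ i : Fin k, Option (Fin (sz p i))), ∃ y, (starForest k (sz p)).Adj x y := by
      rintro ⟨i, x⟩
      rcases x with _ | a
      · exact ⟨_, starForest_adj k (sz p) i ⟨0, by simp [sz]⟩⟩
      · exact ⟨_, (starForest_adj k (sz p) i a).symm⟩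
    obtain ⟨y, hy⟩ := key (e.symm v)
    refine ⟨e y, ?_⟩
    rw [SimpleGraph.comap_adj, Equiv.symm_apply_apply]
    exact hy
  · have hc : ((starForest k (sz p)).comap e.symm).IsContained (starForest k (sz p)) :=
      ⟨⟨⟨e.symm, fun {a b} hab => hab⟩, e.symm.injective⟩⟩
    intro R
    rcases hA R with h | h
    · exact Or.inl (hc.trans h)
    · exact Or.inr (hc.trans h)

/-- The number of vertices is a lower bound. -/
theorem le_of_arrows {n N : ℕ} {G : SimpleGraph (Fin n)} (hA : Arrows N G) : n ≤ N := by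
  rcases hA ⊥ with h | h
  · obtain ⟨φ⟩ := h
    simpa using Fintype.card_le_of_injective _ φ.injective
  · obtain ⟨φ⟩ := h
    simpa using Fintype.card_le_of_injective _ φ.injective

/-- The case of a single star. -/
theorem not_arrows_star {s : ℕ → ℕ} {N : ℕ} (h1 : 2 ≤ s 0) (hN : N + 2 ≤ 2 * s 0) :
    ¬ Arrows N (starForest 1 s) := by
  classical
  intro hA
  let R : SimpleGraph (Fin N) :=
    { Adj := fun u v => u ≠ v ∧ ((u : ℕ) < s 0 - 1 ↔ (v : ℕ) < s 0 - 1)
      symm := ⟨fun u v h => ⟨h.1.symm, h.2.symm⟩⟩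
      loopless := ⟨fun u h => h.1 rfl⟩ }
  -- the classes have at most `s 0 - 1` elements
  have hlow : ∀ P : ℕ → Prop, (P = (fun u => u < s 0 - 1) ∨ P = (fun u => ¬ u < s 0 - 1)) →
      ((univ : Finset (Fin N)).filter fun u : Fin N => P (u : ℕ)).card ≤ s 0 - 1 := by
    intro P hP
    rcases hP with rfl | rfl
    · refine le_trans (b := (range (s 0 - 1)).card) ?_ (card_range _).le
      refine Finset.card_le_card_of_injOn (fun u => (u : ℕ)) ?_ ?_
      · intro u hu
        simpa using hu
      · intro u _ v _ h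
        exact Fin.ext h
    · refine le_trans (b := (range (s 0 - 1)).card) ?_ (card_range _).le
      refine Finset.card_le_card_of_injOn (fun u => (u : ℕ) - (s 0 - 1)) ?_ ?_
      · intro u hu
        have h2 := u.2
        simp only [Finset.coe_filter, Finset.mem_univ, true_and, Set.mem_ofPred_eq] at hu
        simp only [coe_range, Set.mem_Iio]
        omega
      · intro u hu v hv h
        simp only [Finset.coe_filter, Finset.mem_univ, true_and, Set.mem_ofPred_eq] at hu hv
        simp only at h
        exact Fin.ext (by omega)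
  have key : ∀ Q : SimpleGraph (Fin N), (∀ v, ∃ P : ℕ → Prop,
      (P = (fun u => u < s 0 - 1) ∨ P = (fun u => ¬ u < s 0 - 1)) ∧ ∀ u, Q.Adj v u → P u) →
      ¬ (starForest 1 s).IsContained Q := by
    rintro Q hQ ⟨φ⟩
    obtain ⟨P, hP, h⟩ := hQ (φ ⟨0, none⟩)
    have h2 : (univ : Finset (Fin (s 0))).card ≤
        ((univ : Finset (Fin N)).filter fun u : Fin N => P (u : ℕ)).card := by
      refine Finset.card_le_card_of_injOn (fun a => φ ⟨0, some a⟩) ?_ ?_
      · intro a _
        simp only [Finset.coe_filter, Finset.mem_univ, true_and, Set.mem_ofPred_eq]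
        exact h _ (φ.toHom.map_adj (starForest_adj 1 s 0 a))
      · intro a _ b _ hab
        have h3 := φ.injective hab
        simpa using h3
    have h3 := hlow P hP
    rw [Finset.card_univ, Fintype.card_fin] at h2
    omega
  rcases hA R with h | h
  · refine key R ?_ h
    intro v
    by_cases hv : (v : ℕ) < s 0 - 1
    · exact ⟨_, Or.inl rfl, fun u hu => hu.2.mp hv⟩
    · exact ⟨_, Or.inr rfl, fun u hu h => hv (hu.2.mpr h)⟩
  · refine key Rᶜ ?_ h
    intro v
    by_cases hv : (v : ℕ) < s 0 - 1
    · refine ⟨_, Or.inr rfl, fun u hu h => ?_⟩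
      rw [SimpleGraph.compl_adj] at hu
      exact hu.2 ⟨hu.1, ⟨fun _ => h, fun _ => hv⟩⟩
    · refine ⟨_, Or.inl rfl, fun u hu => ?_⟩
      rw [SimpleGraph.compl_adj] at hu
      by_contra h
      exact hu.2 ⟨hu.1, ⟨fun h' => absurd h' hv, fun h' => absurd h' h⟩⟩

/-- The lower bound. -/
theorem lower {n N : ℕ} (hn : 2 ≤ n) {G : SimpleGraph (Fin n)} (hG : ∀ v, ∃ w, G.Adj v w)
    (hA : Arrows N G) : n ≤ 2 ^ (N - n + 1) * (2 * (N - n) + 3) := by
  have hnN := le_of_arrows hA
  obtain ⟨k, s, hk, hanti, hpos, hsum, hcont⟩ := exists_starForest (by omega) G hG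
  have hF : Arrows N (starForest k s) := by
    intro R
    rcases hA R with h | h
    · exact Or.inl (hcont.trans h)
    · exact Or.inr (hcont.trans h)
  rcases Nat.lt_or_ge k 2 with h1 | h2
  · obtain rfl : k = 1 := by omega
    simp only [Finset.sum_range_one] at hsum
    have h3 : n ≤ N - n + 3 := by
      rcases Nat.lt_or_ge (s 0) 2 with h2 | h2
      · omega
      · by_contra h4
        exact not_arrows_star h2 (by omega) hF
    have h5 : 1 ≤ 2 ^ (N - n + 1) := Nat.one_le_two_pow
    nlinarith [Nat.zero_le (N - n)]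
  · have hr : ramseyNumber (starForest k s) ≤ N := Nat.sInf_le hF
    obtain ⟨h3, -, h4, -, -⟩ :=
      Pool.Agent.Results.MP_705b7e_co.StarForestBounds.main_bounds k h2 s hanti hpos
    have hterm : ∀ j < k, ∑ l ∈ range j, s l + 2 * s j ≤ N := by
      intro j hj
      refine le_trans ?_ (h3.trans hr)
      exact Finset.le_sup (f := fun i => ∑ l ∈ range i, s l + 2 * s i) (by simpa using hj)
    have hind : ∀ j ≤ k, N ≤ 2 ^ j * (N - ∑ l ∈ range j, s l) := by
      intro j
      induction j with
      | zero => intro _; simp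
      | succ j ih =>
        intro hj
        have h5 := ih (by omega)
        have h6 := hterm j (by omega)
        rw [Finset.sum_range_succ]
        refine h5.trans ?_
        rw [pow_succ, mul_assoc]
        exact Nat.mul_le_mul_left _ (by omega)
    have h5 := hind k le_rfl
    have h6 : N - ∑ l ∈ range k, s l ≤ 2 * (N - n) + 3 := by omega
    have h7 : 2 ^ k ≤ 2 ^ (N - n + 1) := Nat.pow_le_pow_right (by norm_num) (by omega)
    exact hnN.trans (h5.trans (Nat.mul_le_mul h7 h6))

end Run7.h842.MR
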